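import Pool.Agent.MHP.Stmts

/-! # Squad MHP, piece CSW: exchange of two isomorphic components -/

set_option autoImplicit false

namespace Pool.Agent.MHP.H39

open Pool.Agent.MHP

theorem csw : CswStmt := by
  classical
  rintro U _ G a b hab ⟨φ, hφ⟩
  have e1 : ∀ v, G.Reachable a v → ¬ G.Reachable b v := fun v h1 h2 => hab (h1.trans h2.symm)
  -- the map as a function between subtypes
  let A : Type := {v : U // G.Reachable a v}
  let B : Type := {v : U // G.Reachable b v}
  let p : A → B := fun v => φ v
  let q : B → A := fun v => φ.symm v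
  have hpq : ∀ v, q (p v) = v := fun v => φ.symm_apply_apply v
  have hqp : ∀ v, p (q v) = v := fun v => φ.apply_symm_apply v
  have hp : ∀ v w : A, G.Adj v.1 w.1 → G.Adj (p v).1 (p w).1 := by
    intro v w h
    exact (φ.map_rel_iff (a := v) (b := w)).2 h
  have hq : ∀ v w : B, G.Adj v.1 w.1 → G.Adj (q v).1 (q w).1 := by
    intro v w h
    exact (φ.symm.map_rel_iff (a := v) (b := w)).2 h
  have hpa : (p ⟨a, SimpleGraph.Reachable.refl _⟩).1 = b := congrArg Subtype.val hφ
  let f : U → U := fun v =>
    if h : G.Reachable a v then (p ⟨v, h⟩).1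
    else if h' : G.Reachable b v then (q ⟨v, h'⟩).1 else v
  have fa : ∀ v (h : G.Reachable a v), f v = (p ⟨v, h⟩).1 := fun v h => dif_pos h
  have fb : ∀ v (h : G.Reachable b v), f v = (q ⟨v, h⟩).1 := fun v h => by
    have h0 : ¬ G.Reachable a v := fun h1 => e1 v h1 h
    show (if h : G.Reachable a v then (p ⟨v, h⟩).1
      else if h' : G.Reachable b v then (q ⟨v, h'⟩).1 else v) = _
    rw [dif_neg h0, dif_pos h]
  have fc : ∀ v, ¬ G.Reachable a v → ¬ G.Reachable b v → f v = v := fun v h h' => by
    show (if h : G.Reachable a v then (p ⟨v, h⟩).1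
      else if h' : G.Reachable b v then (q ⟨v, h'⟩).1 else v) = _
    rw [dif_neg h, dif_neg h']
  have hinv : Function.Involutive f := by
    intro v
    by_cases h : G.Reachable a v
    · rw [fa v h, fb _ (p ⟨v, h⟩).2]
      exact congrArg Subtype.val (hpq ⟨v, h⟩)
    · by_cases h' : G.Reachable b v
      · rw [fb v h', fa _ (q ⟨v, h'⟩).2]
        exact congrArg Subtype.val (hqp ⟨v, h'⟩)
      · rw [fc v h h', fc v h h']
  have hadj : ∀ v w, G.Adj v w → G.Adj (f v) (f w) := by
    intro v w hvw
    by_cases h : G.Reachable a v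
    · have h2 : G.Reachable a w := h.trans hvw.reachable
      rw [fa v h, fa w h2]
      exact hp ⟨v, h⟩ ⟨w, h2⟩ hvw
    · have h2 : ¬ G.Reachable a w := fun h3 => h (h3.trans hvw.reachable.symm)
      by_cases h' : G.Reachable b v
      · have h4 : G.Reachable b w := h'.trans hvw.reachable
        rw [fb v h', fb w h4]
        exact hq ⟨v, h'⟩ ⟨w, h4⟩ hvw
      · have h4 : ¬ G.Reachable b w := fun h3 => h' (h3.trans hvw.reachable.symm)
        rw [fc v h h', fc w h2 h4]
        exact hvw
  have hab' : f a = b := by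
    rw [fa a (SimpleGraph.Reachable.refl _)]
    exact hpa
  refine ⟨⟨hinv.toPerm f, ?_⟩, hab', ?_, fc⟩
  · intro v w
    constructor
    · intro h
      have h1 := hadj _ _ h
      have e : ∀ x, f ((hinv.toPerm f) x) = x := fun x => hinv x
      rw [e, e] at h1
      exact h1
    · exact fun h => hadj v w h
  · show f b = a
    rw [← hab']
    exact hinv a

end Pool.Agent.MHP.H39
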